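import Pool.Agent.K3h30.NS.Main
import Pool.Agent.K3h30.BS.Main

/-!
# The vanishing of Beilinson and Soulé for the schemes over finite fields generated by the abelian
varieties of almost all isogeny classes in every Newton stratum

Fix a prime `p`, a nonempty finite set `κ`, dimensions `g i ≥ 1` and, for each `i`, a symmetric
Newton polygon with slopes `s i j` and `1 - s i j` (`j < g i`), where `0 ≤ s i j ≤ 1 / 2`, whose
break points are integral and which is not the supersingular one (`IsNewton (s i)`, `s i j < 1 / 2`
for some `j`). By the theorem of Honda and Tate `Stratum g s p a` is the set of the families `(A_i)`
of isogeny classes of abelian varieties of dimension `g i` over the field with `q = p ^ a` elements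
that have these Newton polygons; it consists of the families `P` of their Frobenius polynomials.

Over an algebraic closure of the field with `p` elements each abelian variety is isogenous to the
reduction of an abelian variety of CM type (Honda, Tate). So an abelian variety over the field with
`p ^ b` elements is modelled by `RedAV`: a finite product of CM types `(E k, Φ k)` with Weil numbers
`π k ∈ E k` that satisfy the formula of Shimura and Taniyama. We fix an isomorphism `ν` of the
algebraic closure of `ℚ_p` with `ℂ`. For a family `P` let `𝒞 (P)` (`OfPolys a P`) be the class of
the abelian varieties `Y` (over any finite extension or subfield of the field with `q` elements)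
each of whose factors is supersingular or isogenous, over an algebraic closure, to a factor of one
of the `A_i`: some power of its Frobenius endomorphism `π k` is, for a complex embedding of `E k`, a
power of a root `z` of some `P i`. So `Y` is, over an algebraic closure, isogenous to a product of
powers of factors of the `A_i` and of a supersingular abelian variety.

`Homology Ω V` are data of motivic homology `M X i j = H_i^M(X, ℚ(j)) = CH_j(X, i - 2 j) ⊗ ℚ` and of
`ℓ`-adic homology `E X i j = H_i(X, ℚ_ℓ(j))` (coefficients extended to `Ω`) of schemes `X` of finite
type over a finite field (the elements of `V`), with the Frobenius and the regulator. For a family `P`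
let `𝒢 (P)` be the smallest class (`Generated`) of such schemes that contains those with the homology
groups of abelian varieties in `𝒞 (P)` (`IsAbelianOfPolys`), that is closed under direct summands of
finite sums of twists of motives, and that contains all of a closed subscheme `Z` of `X`, `X` and
`X ∖ Z` if it contains two of them. It contains for instance all products of varieties in `𝒞 (P)`, all
products of curves with Jacobians in `𝒞 (P)` and of open subsets of such curves, symmetric powers of
them, and the singular and the open varieties with a stratification by such varieties.

Let `𝒲 (P)` be the smallest class of pairs of a scheme `X` and a bound `d` for its dimension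
(`Admissible`) that contains

* the members `X` of `𝒢 (P)` of dimension at most `d` (only Deligne's theorem on the integrality of
  the eigenvalues of the Frobenius on the cohomology with compact supports is used, `IsIntegralLE`),
* the schemes for which the vanishing below is known otherwise, for instance all schemes of
  dimension at most one (Harder, Quillen),
* the schemes whose motives are direct summands of sums of twists of motives of members (blow-ups,
  projective bundles),
* the complement in a member of dimension `d` of a closed subscheme which is a member of dimension
  `d - 1`, and the schemes that are the disjoint union of a closed and of an open member.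

So `𝒲 (P)` contains for instance all open subschemes of all surfaces in `𝒢 (P)`, all surfaces
birational to them, and the complements of unions of such surfaces in the threefolds in `𝒢 (P)`.

A family `P` is good (`Holds p a P`) if for all `X` in `𝒲 (P)`, of dimension at most `d`, one has
`H_a^M(X, ℚ(b)) = 0` for all `a > b + d`. For smooth `X` of pure dimension `d` this is `H^i(X, ℚ(n))
= 0` for all `i < n`; moreover the integral motivic cohomology groups `H^i(X, ℤ(n))`, the
hypercohomology groups of the complex `ℤ(n)` on `X`, are torsion groups for `i < n` and **zero for
all `i ≤ 0 < n`** (`Vanishing`; `IsMotivicCohomology` contains the theorem of Voevodsky, Rost,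
Geisser and Levine that `H^i(X, ℤ(n))` is torsion free for `i ≤ 0`).

For the local form of the conjecture: if all open subschemes of the smooth scheme `X` belong to `𝒲
(P)`, for instance for the surfaces in `𝒢 (P)`, the Zariski sheaves `H^i(ℤ(n))` on `X` are zero for
`i ≤ 0 < n`, and so are the groups `H^i(k, ℤ(n))` for the function field `k` of `X`.

**Theorem.** As `a → ∞` the number of the families in `Stratum g s p a` tends to infinity, and the
proportion of the good families tends to one.

Properties of the theory of cycles that are used for the abelian varieties (`IsChow`, `IsMotivic`):
Poincaré duality, the formal properties of correspondences, the nilpotence of homologically trivial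
correspondences (Kimura), the operation of the Frobenius endomorphism on higher Chow groups, the
vanishing of the higher rational `K`-groups of a finite field (Quillen), and the algebraicity of the
classes in `Alg` (of which only products of classes of divisors matter here, theorem of Tate). The
passage from the Tate conjecture to all degrees and to the class `Generated` is due to Soulé, Geisser,
Kahn and Jannsen.

The proof: for almost all families in the stratum each pair `z`, `q / z` of complex conjugate
Frobenius eigenvalues of the `A_i` can be interchanged by an automorphism of `ℂ` that fixes all the
other eigenvalues of all the `A_i` (large sieve over the residue classes of the coefficients of the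
trace polynomials; the existence and the counting of the families is in the starting files,
`MP_ee618e_ag.NewtonStrata`). So there are only the trivial multiplicative relations between the
eigenvalues (`Neat`), and this determines all relations between the Frobenius eigenvalues of each
`Y` in `𝒞 (P)` (`elementary_of_neat`).-/

set_option autoImplicit false

namespace Pool.Agent.Results.MP_e2821c_ag.NewtonStrata

open Polynomial Pool.Agent.K3h30.NS Pool.Agent.K3h30.BS Pool.Agent.W495.TA Pool.Agent.W495.FM

/-- The vanishing of Beilinson and Soulé for all schemes generated by abelian varieties whose factors
are supersingular or factors of the abelian varieties with Frobenius polynomials `P i`. -/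
def Holds {κ : Type} (p : ℕ) [Fact p.Prime] (a : ℕ) (P : κ → ℤ[X]) : Prop :=
  ∀ (ν : PadicAlgCl p ≃+* ℂ) (Ω : Type) [Field Ω] [IsAlgClosed Ω] [CharZero Ω] (V : Type)
    (T : Homology Ω V), IsHomology T → ∀ (X : V) (d : ℤ),
      Admissible T (IsAbelianOfPolys ν a P T) X d → Vanishing T X d

theorem holds_of {κ : Type} {p : ℕ} [Fact p.Prime] {a : ℕ} {P : κ → ℤ[X]}
    (h : ∀ (ν : PadicAlgCl p ≃+* ℂ) (Y : RedAV p ν), OfPolys a P Y → ∃ Z : RedAV p ν,
      Pool.Agent.TH117.BL.HasElementaryRelations Z ∧
        Pool.Agent.TH117.BL.IsPowersTimesSupersingular Z Y) : Holds p a P :=
  fun ν _ _ _ _ _ _ hT _ _ hX => vanishing hT (fun _ h' => tb_polys (h ν) hT h') hX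

/-- **The vanishing of Beilinson and Soulé for the schemes over finite fields generated by the abelian
varieties of almost all isogeny classes in every Newton stratum.** -/
theorem result {κ : Type} [Fintype κ] [Nonempty κ] (p : ℕ) [Fact p.Prime]
    -- dimensions and Newton polygons
    (g : κ → ℕ) (hg : ∀ i, 1 ≤ g i) (s : ∀ i, Fin (g i) → ℚ) (hs : ∀ i, IsNewton (s i))
    (hss : ∀ i, ∃ j, s i j < 1 / 2)
    -- a number of families of isogeny classes, a proportion of exceptions
    (N : ℕ) (ε : ℝ) (hε : 0 < ε) :
    ∃ a₀ : ℕ, ∀ a, a₀ ≤ a →
      (Stratum g s p a).Finite ∧ N ≤ (Stratum g s p a).ncard ∧
      ({P ∈ Stratum g s p a | ¬ Holds p a P}.ncard : ℝ) ≤ ε * ((Stratum g s p a).ncard : ℝ) :=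
  almost_all p g hg s hs hss (Holds p) (fun _ _ h => holds_of h) N ε hε

end Pool.Agent.Results.MP_e2821c_ag.NewtonStrata
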