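import Pool.Agent.K3h30.BS.Main
import Pool.Agent.R937.PZ.Mot

/-!
# The vanishing of Beilinson and Soulé for the schemes over finite fields generated by abelian varieties
of dimension at most five and by products of abelian varieties with small factors

Over an algebraic closure of the field with `p` elements each abelian variety is isogenous to the
reduction of an abelian variety of CM type (Honda, Tate). So an abelian variety over the field with
`p ^ a` elements is modelled by `RedAV`: a finite product of CM types `(E i, Φ i)` with Weil numbers
`π i ∈ E i` that satisfy the formula of Shimura and Taniyama; its cohomology of degree `n`, with
coefficients in an algebraically closed field `Ω`, consists of the alternating `n`-forms on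
`Ω ⊗ H_1`, on which the Frobenius endomorphism acts by `π`.

Let `𝒞` be the class of the abelian varieties `Y` (`IsGoodAVP`, any Newton polygons) of dimension at
most five, and of those that are isogenous, over an algebraic closure, to a product of a
supersingular abelian variety of any dimension and of powers of the factors of an abelian variety
`Z` such that the factors of `Z` have dimension at most three, and two factors of dimension three
with CM fields with the same Galois closure are isogenous, or have Galois CM fields, or one of them
is supersingular, or they are **both not ordinary, with `p`-ranks that are not one and two**
(`SmallFactorsP`). So `𝒞` contains for instance all abelian varieties of dimension at most five, and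
all products of elliptic curves, of abelian surfaces and of a supersingular abelian variety.

`Homology Ω V` are data of motivic homology `M X i j = H_i^M(X, ℚ(j)) = CH_j(X, i - 2 j) ⊗ ℚ` and of
`ℓ`-adic homology `E X i j = H_i(X, ℚ_ℓ(j))` (coefficients extended to `Ω`) of schemes `X` of finite
type over a finite field (the elements of `V`), with the Frobenius and the regulator. Let `𝒢` be the
smallest class (`Generated`) of such schemes that contains those with the homology groups of abelian
varieties in `𝒞` (`IsGoodAbelianP`), that is closed under direct summands of finite sums of twists
of motives, and that contains all of a closed subscheme `Z` of `X`, `X` and `X ∖ Z` if it contains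
two of them. It contains for instance the products of curves, of open subsets of them, and of
surfaces dominated by products of curves, if the product of their Jacobians is in `𝒞`, symmetric
powers of them, and the singular and the open varieties with a stratification by such varieties.

Let `𝒲` be the smallest class of pairs of a scheme `X` and a bound `d` for its dimension
(`Admissible`) that contains

* the members `X` of `𝒢` of dimension at most `d` (only Deligne's theorem on the integrality of the
  eigenvalues of the Frobenius on the cohomology with compact supports is used, `IsIntegralLE`),
* the schemes for which the vanishing below is known otherwise, for instance all schemes of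
  dimension at most one (Harder, Quillen),
* the schemes whose motives are direct summands of sums of twists of motives of members (blow-ups,
  projective bundles),
* the complement in a member of dimension `d` of a closed subscheme which is a member of dimension
  `d - 1`, and the schemes that are the disjoint union of a closed and of an open member.

So `𝒲` contains for instance all open subschemes of all surfaces in `𝒢`, all surfaces birational to
them, and the complements of unions of such surfaces in the threefolds in `𝒢`.

**Theorem.** For all `X` in `𝒲`, of dimension at most `d`, one has `H_a^M(X, ℚ(b)) = 0` for all `a >
b + d`. For smooth `X` of pure dimension `d` this is `H^i(X, ℚ(n)) = 0` for all `i < n`; moreover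
the integral motivic cohomology groups `H^i(X, ℤ(n))`, the hypercohomology groups of the complex
`ℤ(n)` on `X`, are torsion groups for `i < n` and **zero for all `i ≤ 0 < n`** (`Vanishing`;
`IsMotivicCohomology` contains the theorem of Voevodsky, Rost, Geisser and Levine that `H^i(X,
ℤ(n))` is torsion free for `i ≤ 0`).

For the local form of the conjecture: if all open subschemes of the smooth scheme `X` belong to `𝒲`,
for instance for the surfaces in `𝒢`, the Zariski sheaves `H^i(ℤ(n))` on `X` are zero for `i ≤ 0 <
n`, and so are the groups `H^i(k, ℤ(n))` for the function field `k` of `X`.

Properties of the theory of cycles that are used for the abelian varieties (`IsChowS`, `IsMotivic`),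
all of them known theorems: Poincaré duality, the formal properties of correspondences, the
nilpotence of homologically trivial correspondences (Kimura), the operation of the Frobenius
endomorphism on higher Chow groups, the vanishing of the higher rational `K`-groups of a finite
field (Quillen), and the algebraicity of the Tate classes generated by divisors, by the reductions
of split Weil classes on abelian fourfolds and sixfolds of CM type and by the reductions of Hodge
classes on products of elliptic curves and abelian surfaces with complex multiplication (Tate,
Markman, Ramón Marí).

The Tate conjecture for the abelian varieties in `𝒞` is the content of the starting files
(`MP_ee618e_ag.SurfacesAndDimensionFive` and `MP_2ce3e7_ag`/`MP_de89cc_ag.NonOrdinaryThreefolds`); the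
passage from it to all degrees and to the class `𝒢` is due to Soulé, Geisser, Kahn and Jannsen.
-/

set_option autoImplicit false

namespace Pool.Agent.Results.MP_e2821c_ag.SmallFactors

open Pool.Agent.W495.TA Pool.Agent.W495.FM Pool.Agent.R937.PG Pool.Agent.K3h30.BS

/-- **The vanishing of Beilinson and Soulé for the schemes over finite fields generated by abelian
varieties of dimension at most five, or with small factors.** -/
theorem result (p : ℕ) [Fact p.Prime] (ν : PadicAlgCl p ≃+* ℂ) (Ω : Type) [Field Ω]
    [IsAlgClosed Ω] [CharZero Ω] (V : Type) (T : Homology Ω V) (hT : IsHomology T) (X : V) (d : ℤ)
    (hX : Admissible T (IsGoodAbelianP p ν T) X d) : Vanishing T X d :=
  vanishing hT (fun _ h => tb_goodP hT h) hX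

end Pool.Agent.Results.MP_e2821c_ag.SmallFactors
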